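import Mathlib

/-!
# CP-1: a derivation of a field of characteristic `p` with `D x = 1`
-/

set_option autoImplicit false

namespace Pool.Agent.Y286.CP

open Polynomial IntermediateField

theorem der (F : Type) [Field F] (p : ℕ) [hp : Fact p.Prime] [CharP F p] (x : F)
    (hx : ∀ y : F, y ^ p ≠ x) : ∃ D : Derivation ℤ F F, D x = 1 := by
  have hinj : ∀ a b : F, a ^ p = b ^ p → a = b := fun a b h => frobenius_inj F p h
  let S : Set (Subfield F) := {K | (∀ y : F, y ^ p ∈ K) ∧ x ∉ K}
  have hS0 : (frobenius F p).fieldRange ∈ S := by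
    refine ⟨fun y => ⟨y, rfl⟩, ?_⟩
    rintro ⟨y, hy⟩
    exact hx y hy
  obtain ⟨K, -, hK⟩ := zorn_le_nonempty₀ S (by
    intro c hcS hc K1 hK1
    refine ⟨sSup c, ⟨fun y => ?_, ?_⟩, fun z hz => le_sSup hz⟩
    · exact (le_sSup hK1 : K1 ≤ sSup c) ((hcS hK1).1 y)
    · rw [Subfield.mem_sSup_of_directedOn ⟨K1, hK1⟩ hc.directedOn]
      rintro ⟨s, hs, hxs⟩
      exact (hcS hs).2 hxs) _ hS0
  have hKp : ∀ y : F, y ^ p ∈ K := hK.prop.1
  have hxK : x ∉ K := hK.prop.2
  have hroot : ∀ z : F, aeval z (X ^ p - C (⟨z ^ p, hKp z⟩ : K)) = 0 := by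
    intro z
    rw [map_sub, map_pow, aeval_X, aeval_C]
    exact sub_self _
  have hirr : ∀ z : F, z ∉ K → Irreducible (X ^ p - C (⟨z ^ p, hKp z⟩ : K)) := by
    intro z hz
    refine X_pow_sub_C_irreducible_of_prime hp.out fun b hb => hz ?_
    have h1 : (b : F) ^ p = z ^ p := congrArg Subtype.val hb
    rw [← hinj _ _ h1]
    exact b.2
  have hmin : ∀ z : F, z ∉ K → minpoly K z = X ^ p - C (⟨z ^ p, hKp z⟩ : K) := fun z hz =>
    (minpoly.eq_of_irreducible_of_monic (hirr z hz) (hroot z)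
      (monic_X_pow_sub_C _ hp.out.ne_zero)).symm
  have hint : ∀ z : F, IsIntegral K z := fun z =>
    ⟨X ^ p - C (⟨z ^ p, hKp z⟩ : K), monic_X_pow_sub_C _ hp.out.ne_zero, hroot z⟩
  have hfin : ∀ z : F, z ∉ K → Module.finrank K K⟮z⟯ = p := by
    intro z hz
    rw [IntermediateField.adjoin.finrank (hint z), hmin z hz, natDegree_X_pow_sub_C]
  have hsurj : Function.Surjective (aeval x : K[X] →ₐ[K] F) := by
    intro y
    have hy : y ∈ K⟮x⟯ := by
      by_cases hyK : y ∈ K
      · exact IntermediateField.algebraMap_mem K⟮x⟯ (⟨y, hyK⟩ : K)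
      · have h1 : x ∈ K⟮y⟯ := by
          by_contra hcon
          have h2 : K⟮y⟯.toSubfield ∈ S :=
            ⟨fun w => IntermediateField.algebraMap_mem K⟮y⟯ (⟨w ^ p, hKp w⟩ : K), hcon⟩
          have h3 : K ≤ K⟮y⟯.toSubfield := fun w hw => IntermediateField.algebraMap_mem K⟮y⟯ (⟨w, hw⟩ : K)
          have h4 := hK.le_of_ge h2 h3
          exact hyK (h4 (IntermediateField.mem_adjoin_simple_self K y))
        have h5 : K⟮x⟯ ≤ K⟮y⟯ := IntermediateField.adjoin_simple_le_iff.mpr h1
        have : FiniteDimensional K K⟮y⟯ := IntermediateField.adjoin.finiteDimensional (hint y)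
        have h6 := IntermediateField.eq_of_le_of_finrank_eq h5 (by rw [hfin x hxK, hfin y hyK])
        rw [h6]
        exact IntermediateField.mem_adjoin_simple_self K y
    have h7 : y ∈ Algebra.adjoin K {x} := by
      rw [← IntermediateField.adjoin_simple_toSubalgebra_of_isAlgebraic (hint x).isAlgebraic]
      exact hy
    rw [Algebra.adjoin_singleton_eq_range_aeval] at h7
    exact h7
  have hchar : ((p : ℕ) : K[X]) = 0 := by
    have h1 : ((p : ℕ) : K) = 0 := by
      apply Subtype.ext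
      push_cast
      exact CharP.cast_eq_zero F p
    rw [← C_eq_natCast, h1, C_0]
  have hd : ∀ f : K[X], aeval x f = 0 → aeval x ((derivative' : Derivation K K[X] K[X]) f) = 0 := by
    intro f hf
    have h1 : minpoly K x ∣ f := minpoly.dvd K x hf
    rw [hmin x hxK] at h1
    obtain ⟨g, rfl⟩ := h1
    show aeval x (derivative ((X ^ p - C (⟨x ^ p, hKp x⟩ : K)) * g)) = 0
    rw [derivative_mul, derivative_sub, derivative_X_pow, derivative_C, map_add, map_mul, map_mul,
      hroot x, zero_mul, add_zero]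
    rw [C_eq_natCast, hchar]
    simp
  refine ⟨(Derivation.liftOfSurjective (f := (aeval x : K[X] →ₐ[K] F)) hsurj hd).restrictScalars ℤ,
    ?_⟩
  have h1 := Derivation.liftOfSurjective_apply (f := (aeval x : K[X] →ₐ[K] F)) hsurj hd X
  rw [aeval_X] at h1
  rw [Derivation.restrictScalars_apply, h1]
  show aeval x (derivative (X : K[X])) = 1
  rw [derivative_X, map_one]

end Pool.Agent.Y286.CP
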