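import Pool.Agent.Z894.CP.Stm
import Pool.Agent.Y286.CP.Der

/-!
# CP-1: `PDer`
-/

set_option autoImplicit false

namespace Pool.Agent.Y286.CP

theorem der_holds : Pool.Agent.Z894.CP.PDer := fun F _ p _ _ x hx => der F p x hx

end Pool.Agent.Y286.CP
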